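import Pool.Agent.Helper566.Lorentz

open MeasureTheory Set Metric
open scoped ContDiff

namespace Pool.Agent.Results.MP_28243e_an.UpperBound

/-- Euclidean space `ℝⁿ`. -/
abbrev E (n : ℕ) : Type := EuclideanSpace ℝ (Fin n)

/-- Lebesgue measure on the open unit ball `B`. -/
noncomputable def ballMeasure (n : ℕ) : Measure (E n) := volume.restrict (ball 0 1)

/-- `φ ∈ C_c^∞(B)`. -/
def IsTest {n : ℕ} (φ : E n → ℝ) : Prop :=
  ContDiff ℝ ∞ φ ∧ HasCompactSupport φ ∧ tsupport φ ⊆ ball 0 1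

/-- The classical partial derivative `∂_α φ`. -/
noncomputable def pd {n : ℕ} (φ : E n → ℝ) (α : Fin n) (x : E n) : ℝ :=
  fderiv ℝ φ x (EuclideanSpace.single α 1)

/-- `u ∈ W^{1,n}(B, ℝᵐ)` with weak gradient `Du`, where `Du x i α = ∂_α uⁱ (x)`. -/
def IsSobolev {n m : ℕ} (u : E n → Fin m → ℝ) (Du : E n → Fin m → Fin n → ℝ) : Prop :=
  (∀ i, MemLp (fun x => u x i) n (ballMeasure n)) ∧
  (∀ i α, MemLp (fun x => Du x i α) n (ballMeasure n)) ∧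
  ∀ i α (φ : E n → ℝ), IsTest φ →
    ∫ x, u x i * pd φ α x ∂(ballMeasure n) = - ∫ x, Du x i α * φ x ∂(ballMeasure n)

/-- The norm `(∑_{i,α} (∂_α uⁱ)²)^{1/2}` of the gradient matrix. -/
noncomputable def matNorm {n m : ℕ} (D : Fin m → Fin n → ℝ) : ℝ :=
  Real.sqrt (∑ i, ∑ α, D i α ^ 2)

/-- The decreasing rearrangement `f*(t) = inf {l ≥ 0 : |{x ∈ B : |f(x)| > l}| ≤ t}`. -/
noncomputable def rearrangement {n : ℕ} (f : E n → ℝ) (t : ℝ) : ℝ :=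
  sInf {l : ℝ | 0 ≤ l ∧ ballMeasure n {x | l < |f x|} ≤ ENNReal.ofReal t}

/-- `f ∈ L^{(n,p)}(B)` for finite `p`: `f` is measurable and
`∫_0^∞ (t^{1/n} f*(t))^p dt/t < ∞`. -/
def MemLorentz {n : ℕ} (p : ℝ) (f : E n → ℝ) : Prop :=
  AEStronglyMeasurable f (ballMeasure n) ∧
  ∫⁻ t in Ioi (0 : ℝ), ENNReal.ofReal ((t ^ (1 / (n : ℝ)) * rearrangement f t) ^ p / t) < ⊤

/-- An antisymmetric potential `Ω = (Ω^α_{ij})` (written `Ω i j α`) of class `L^{(n,p)}`. -/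
def IsAntisymmetricPotential {n m : ℕ} (p : ℝ) (Ω : Fin m → Fin m → Fin n → E n → ℝ) : Prop :=
  (∀ i j α, MemLorentz p (Ω i j α)) ∧
  ∀ i j α, ∀ᵐ x ∂(ballMeasure n), Ω i j α x = - Ω j i α x

/-- `u`, with gradient `Du`, satisfies
`-div(|∇u|^{n-2} ∇uⁱ) = ∑_{j,α} Ω^α_{ij} |∇u|^{n-2} ∂_α uʲ` against every `φ ∈ C_c^∞(B)`. -/
def IsWeakSolution {n m : ℕ} (Ω : Fin m → Fin m → Fin n → E n → ℝ)
    (Du : E n → Fin m → Fin n → ℝ) : Prop :=
  ∀ (i : Fin m) (φ : E n → ℝ), IsTest φ →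
    ∫ x, ∑ α, matNorm (Du x) ^ (n - 2) * Du x i α * pd φ α x ∂(ballMeasure n)
      = ∫ x, (∑ j, ∑ α, Ω i j α x * (matNorm (Du x) ^ (n - 2) * Du x j α)) * φ x ∂(ballMeasure n)

/-- `u` agrees almost everywhere on `B` with a map that is continuous on `B`. -/
def HasContinuousRepresentative {n m : ℕ} (u : E n → Fin m → ℝ) : Prop :=
  ∃ v : E n → Fin m → ℝ, ContinuousOn v (ball 0 1) ∧ ∀ᵐ x ∂(ballMeasure n), u x = v x

/-- The set `P_n` of the problem. -/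
def PSet (n : ℕ) : Set ℝ :=
  {p | 1 ≤ p ∧ p ≤ n ∧ ∀ m : ℕ, 1 ≤ m → ∀ Ω : Fin m → Fin m → Fin n → E n → ℝ,
    IsAntisymmetricPotential p Ω → ∀ (u : E n → Fin m → ℝ) (Du : E n → Fin m → Fin n → ℝ),
      IsSobolev u Du → IsWeakSolution Ω Du → HasContinuousRepresentative u}

/-- For every `n ≥ 3` the set `P_n` is contained in `[1, 2]`. -/
theorem result : ∀ n : ℕ, 3 ≤ n → PSet n ⊆ Icc 1 2 := by
  rintro n hn p ⟨hp1, -, hp⟩
  refine ⟨hp1, ?_⟩
  by_contra hcon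
  rw [not_le] at hcon
  refine Helper566.Map.not_continuous hn (hp (n + 1) (by omega) Helper566.Map.Om ⟨?_, ?_⟩
    Helper566.Map.u Helper566.Map.Du ⟨?_, ?_, ?_⟩ ?_)
  · exact fun i j α => ⟨(Helper566.Map.measurable_Om i j α).aestronglyMeasurable,
      Helper566.Lorentz.lorentz_lt_top hn (by positivity)
        (fun x hx => Helper566.Map.abs_Om_le hn hx i j α) hcon⟩
  · exact fun i j α => Filter.Eventually.of_forall fun x => Helper566.Map.Om_antisymm i j α x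
  · exact fun i => Helper566.Map.memLp_u hn i
  · exact fun i α => Helper566.Map.memLp_Du hn i α
  · rintro i α φ ⟨hφ, hc, hs⟩
    exact Helper566.Map.weak_gradient hn i α hφ hc hs
  · rintro i φ ⟨hφ, hc, hs⟩
    exact Helper566.Map.weak_equation hn i hφ hc hs

end Pool.Agent.Results.MP_28243e_an.UpperBound
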